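import Pool.Agent.helper80.SV.Final

/-!
# All special line bundles on a product of projective spaces outside an explicit finite box
-/

set_option autoImplicit false

namespace Pool.Agent.Results.MP_b5a345_ag.BeyondExplicitBox

open Pool.Agent.SV

theorem result :
    ∀ (k : ℕ) (n : Fin k → ℕ), 2 ≤ k → (∀ i, 1 ≤ n i) → ∀ d : Fin k → ℤ,
      ((∀ i, 1 ≤ d i) ∧ ∀ i, d i < (∑ i, (n i : ℤ) + 1) ^ 5) ∨ (SpecialZ n d ↔ CritZ n d) :=
  ALE''

end Pool.Agent.Results.MP_b5a345_ag.BeyondExplicitBox
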