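import Pool.Agent.helper80.SV.Final

/-!
# Special line bundles on products of projective spaces: a cubic threshold

If the number of sections of the restriction of `O(d_1, .., d_j - 1, .., d_k)` to a hyperplane of the
`j`-th factor is at least `(N + 1)^3` and `d_j ≥ 3` (or a slightly stronger inequality holds and
`d_j = 2`), then `O(d_1, ..., d_k)` is not special.
-/

set_option autoImplicit false

namespace Pool.Agent.Results.MP_b5a345_ag.CubicThreshold

open Pool.Agent.SV

theorem result :
    ∀ (k : ℕ) (n d : Fin k → ℕ), 2 ≤ k → (∀ i, 1 ≤ n i) → (∀ i, 1 ≤ d i) → ∀ j : Fin k,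
      ((3 ≤ d j ∧ (∑ i, n i + 1) ^ 3 ≤ hj n d j) ∨
        (d j = 2 ∧ (∑ i, n i - n j + 1) * (∑ i, n i + 1) ^ 3 ≤
          (∑ i, n i - n j - 1) * hj n d j)) →
      ¬ Special n d :=
  THR''

end Pool.Agent.Results.MP_b5a345_ag.CubicThreshold
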