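import Pool.Agent.helper80.SG.Class

/-!
# All special line bundles on large products of projective spaces

If `4 (N + 1)^3 ≤ ∏ (n_i + 1)`, or if there are at most four factors and `110 n_i^3 ≤ n_l^4` for all
`i, l`, then all special line bundles on `P^{n_1} × ... × P^{n_k}` are known, except for the degrees
`(1,2)`, `(2,1)`, `(2,2)` (two factors), `(1,1,1)` (three factors) and `(1,...,1)` if all `n_i = 1`.
-/

set_option autoImplicit false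

namespace Pool.Agent.Results.MP_b5a345_ag.LargeProducts

open Pool.Agent.SV

theorem result :
    ∀ (k : ℕ) (n : Fin k → ℕ), 2 ≤ k → (∀ i, 1 ≤ n i) →
      (4 * (∑ i, n i + 1) ^ 3 ≤ ∏ i, (n i + 1) ∨ (k ≤ 4 ∧ ∀ i l, 110 * n i ^ 3 ≤ n l ^ 4)) →
      ∀ d : Fin k → ℤ, ¬ (∀ i, n i = 1 ∧ d i = 1) →
        ¬ (k = 2 ∧ (∀ i, 1 ≤ d i ∧ d i ≤ 2) ∧ ∃ i, d i = 2) → ¬ (k = 3 ∧ ∀ i, d i = 1) →
        (SpecialZ n d ↔
          ((∀ i, 0 ≤ d i) ∧ (∃ i, d i = 0) ∧ 2 ≤ ∑ i, d i) ∨ (k = 2 ∧ ∀ i, d i = 1)) :=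
  Pool.Agent.SG.BLZ'

end Pool.Agent.Results.MP_b5a345_ag.LargeProducts
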