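import Pool.Agent.helper80.SG.Core

/-!
# Special line bundles on products of projective spaces: a factor of degree one

If `d_j = 1`, `n_j ≥ 2`, some set `T` of further factors has total degree `3` (for Segre varieties: any
three further factors) and `n_j` times the number `M` of sections on the product of the other factors
is at least `(N + 1) (n + 1) (2 n + 3 n_j + 3)`, `n = N - n_j`, then `O(d_1, ..., d_k)` is not special.
-/

set_option autoImplicit false

namespace Pool.Agent.Results.MP_b5a345_ag.SegreThreshold

open Pool.Agent.SV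

theorem result :
    ∀ (k : ℕ) (n d : Fin k → ℕ), (∀ i, 1 ≤ n i) → (∀ i, 1 ≤ d i) → ∀ j : Fin k, d j = 1 → 2 ≤ n j →
      ∀ T : Finset (Fin k), j ∉ T → ∑ i ∈ T, d i = 3 →
      (∑ i, n i + 1) * (∑ i, n i - n j + 1) * (2 * (∑ i, n i - n j) + 3 * n j + 3) ≤
        n j * ∏ i ∈ Finset.univ.erase j, (n i + d i).choose (n i) →
      ¬ Special n d :=
  Pool.Agent.SG.ST2'

end Pool.Agent.Results.MP_b5a345_ag.SegreThreshold
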